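import Mathlib
import Pool.Agent.Lib.MP_c5238b_co.M1
import Pool.Agent.Lib.MP_c5238b_co.M2
import Pool.Agent.Lib.MP_c5238b_co.M3
import Pool.Agent.Lib.MP_c5238b_co.M4

/-!
# Bounded embeddings on the cylinder can be made radial

A finite graph (multiple edges allowed) is given by its vertex type `V`, its edge type `E` and the
map `ends : E → Sym2 V` sending an edge to its unordered pair of endpoints; a simple graph `G` is
the case `E = G.edgeSet`, `ends = Subtype.val` (see `simpleGraph_version`).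
-/

namespace Pool.Agent.Results.MP_c5238b_co.RadialEmb

/-- The cylinder `[0,1] × S¹`, where `S¹ = ℝ/ℤ`.  The projection to `I = [0,1]` is `Prod.fst`. -/
abbrev Cyl : Type := unitInterval × UnitAddCircle

/-- `(pos, arc)` is a drawing on the cylinder of the graph with endpoint map `ends`: the vertices
are distinct points of the interior of the cylinder, each edge with endpoints `u`, `v` is drawn as
a simple curve joining `u` and `v`, and it avoids all other vertices. -/
structure IsDrawing {V E : Type*} (ends : E → Sym2 V) (pos : V → Cyl) (arc : E → Set Cyl) :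
    Prop where
  /-- distinct vertices are distinct points -/
  inj : Function.Injective pos
  /-- vertices are in the interior of the cylinder -/
  interior : ∀ v, 0 < (pos v).1 ∧ (pos v).1 < 1
  /-- each edge is a simple curve joining its endpoints -/
  curve : ∀ e u v, ends e = s(u, v) → ∃ φ : unitInterval → Cyl, Continuous φ ∧
    Function.Injective φ ∧ φ 0 = pos u ∧ φ 1 = pos v ∧ Set.range φ = arc e
  /-- each edge avoids all vertices other than its endpoints -/
  avoid : ∀ e w, w ∉ ends e → pos w ∉ arc e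

/-- An embedding is a drawing in which two edges meet only at a common endpoint. -/
structure IsEmbedding {V E : Type*} (ends : E → Sym2 V) (pos : V → Cyl) (arc : E → Set Cyl) :
    Prop where
  drawing : IsDrawing ends pos arc
  meet : ∀ e f, e ≠ f → ∀ q, q ∈ arc e → q ∈ arc f → ∃ v, v ∈ ends e ∧ v ∈ ends f ∧ q = pos v

/-- The two conditions in the definition of a `γ`-bounded drawing. -/
structure IsBounded {V E : Type*} (ends : E → Sym2 V) (γ : V → ℕ) (pos : V → Cyl)
    (arc : E → Set Cyl) : Prop where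
  /-- `I(u) < I(v)` whenever `γ(u) < γ(v)` -/
  order : ∀ u v, γ u < γ v → (pos u).1 < (pos v).1
  /-- for every edge `uv` with `γ(u) ≤ γ(v)` and every vertex `w` with `I(w) ∈ I(uv)`,
  `γ(u) ≤ γ(w) ≤ γ(v)` -/
  bdd : ∀ e u v w, ends e = s(u, v) → γ u ≤ γ v → (pos w).1 ∈ Prod.fst '' arc e →
    γ u ≤ γ w ∧ γ w ≤ γ v

/-- Every edge is radial: the projection to `I` restricted to the edge is injective. -/
def AllRadial {E : Type*} (arc : E → Set Cyl) : Prop :=
  ∀ e, Set.InjOn Prod.fst (arc e)

open CylB in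
theorem abstract_main {V E : Type*} [Fintype V] [Fintype E] (D : Gr V E) (γ : V → ℕ)
    (pos : V → Cyl) (φ : E → unitInterval → Cyl) (h : CylEmb D γ pos φ) :
    ∃ (pos' : V → Cyl) (φ' : E → unitInterval → Cyl), CylEmb D γ pos' φ' ∧
      ∀ e, Function.Injective (fun t => (φ' e t).1) := by
  classical
  obtain ⟨gf⟩ := M4 D γ pos φ h
  obtain ⟨l, h1, h2, h3, h4⟩ := M1 D γ (M3 D γ h.le gf)
  exact M2 D γ h.le l h1 h2 h3 h4

/-- Every finite graph `(G, γ)` that has a `γ`-bounded embedding on the cylinder has a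
`γ`-bounded embedding on the cylinder in which every edge is radial. -/
theorem result {V E : Type*} [Finite V] [Finite E] (ends : E → Sym2 V) (γ : V → ℕ)
    (h : ∃ (pos : V → Cyl) (arc : E → Set Cyl), IsEmbedding ends pos arc ∧
      IsBounded ends γ pos arc) :
    ∃ (pos : V → Cyl) (arc : E → Set Cyl), IsEmbedding ends pos arc ∧
      IsBounded ends γ pos arc ∧ AllRadial arc := by
  classical
  have := Fintype.ofFinite V
  have := Fintype.ofFinite E
  obtain ⟨pos, arc, hE, hB⟩ := h
  -- orientation of the edges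
  have hor : ∀ e : E, ∃ p : V × V, ends e = s(p.1, p.2) ∧ γ p.1 ≤ γ p.2 := by
    intro e
    obtain ⟨u, v, huv⟩ : ∃ u v, ends e = s(u, v) := by
      induction ends e with
      | _ u v => exact ⟨u, v, rfl⟩
    rcases le_total (γ u) (γ v) with h | h
    · exact ⟨(u, v), huv, h⟩
    · exact ⟨(v, u), huv.trans Sym2.eq_swap, h⟩
  choose o ho1 ho2 using hor
  have hcur := fun e : E => hE.drawing.curve e _ _ (ho1 e)
  choose φ hφc hφi hφ0 hφ1 hφr using hcur
  have hne : ∀ e, (o e).1 ≠ (o e).2 := by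
    intro e hcon
    have h1 : φ e 0 = φ e 1 := by rw [hφ0, hφ1, hcon]
    exact zero_ne_one (hφi e h1)
  let D : CylB.Gr V E := ⟨fun e => (o e).1, fun e => (o e).2, hne⟩
  have hmem : ∀ e t, φ e t ∈ arc e := by
    intro e t
    rw [← hφr e]
    exact Set.mem_range_self t
  have hv : ∀ (e : E) (v : V), v ∈ ends e ↔ (v = (o e).1 ∨ v = (o e).2) := by
    intro e v
    rw [ho1 e, Sym2.mem_iff]
  have hC : CylB.CylEmb D γ pos φ := by
    refine ⟨fun e => ho2 e, hE.drawing.inj, hE.drawing.interior, hφc, hφi, hφ0, hφ1, ?_, ?_,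
      hB.order, ?_⟩
    · intro e t w hw
      by_contra hcon
      apply hE.drawing.avoid e w (fun hh => hcon ((hv e w).1 hh))
      rw [← hw]
      exact hmem e t
    · intro e f hef s t hst
      obtain ⟨v, hve, hvf, hq⟩ := hE.meet e f hef (φ e s) (hmem e s) (hst ▸ hmem f t)
      exact ⟨v, hq, (hv e v).1 hve, (hv f v).1 hvf⟩
    · intro e t w hw
      refine hB.bdd e _ _ w (ho1 e) (ho2 e) ?_
      rw [← hw]
      exact ⟨_, hmem e t, rfl⟩
  obtain ⟨pos', φ', hC', hR'⟩ := abstract_main D γ pos φ hC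
  refine ⟨pos', fun e => Set.range (φ' e), ⟨⟨hC'.pos_inj, hC'.interior, ?_, ?_⟩, ?_⟩,
    ⟨hC'.order, ?_⟩, ?_⟩
  · intro e u v huv
    have h1 : s((o e).1, (o e).2) = s(u, v) := (ho1 e).symm.trans huv
    rw [Sym2.eq_iff] at h1
    rcases h1 with ⟨h1, h2⟩ | ⟨h1, h2⟩
    · exact ⟨φ' e, hC'.cont e, hC'.inj e, by rw [hC'.start, ← h1], by rw [hC'.finish, ← h2], rfl⟩
    · refine ⟨fun t => φ' e (unitInterval.symm t), (hC'.cont e).comp unitInterval.continuous_symm,
        (hC'.inj e).comp unitInterval.symm_bijective.injective, ?_, ?_, ?_⟩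
      · simp only [unitInterval.symm_zero]
        rw [hC'.finish, ← h2]
      · simp only [unitInterval.symm_one]
        rw [hC'.start, ← h1]
      · exact (unitInterval.symm_bijective.surjective).range_comp (φ' e)
  · rintro e w hw ⟨t, ht⟩
    exact hw ((hv e w).2 (hC'.avoid e t w ht))
  · rintro e f hef q ⟨s, hs⟩ ⟨t, ht⟩
    obtain ⟨v, h1, h2, h3⟩ := hC'.disj e f hef s t (hs.trans ht.symm)
    exact ⟨v, (hv e v).2 h2, (hv f v).2 h3, hs ▸ h1⟩
  · rintro e u v w huv hle ⟨_, ⟨t, rfl⟩, ht⟩
    have h0 := hC'.bdd e t w ht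
    have h1 : s((o e).1, (o e).2) = s(u, v) := (ho1 e).symm.trans huv
    rw [Sym2.eq_iff] at h1
    have h2 := ho2 e
    rcases h1 with ⟨h1, h2'⟩ | ⟨h1, h2'⟩
    · simp only [D] at h0
      rw [h1, h2'] at h0
      exact h0
    · simp only [D] at h0
      rw [h1, h2'] at h0 h2
      exact ⟨hle.trans h0.1, h0.2.trans hle⟩
  · rintro e _ ⟨s, rfl⟩ _ ⟨t, rfl⟩ hqq
    exact congrArg _ (hR' _ hqq)

/-- The case of simple graphs. -/
theorem simpleGraph_version {V : Type*} [Finite V] (G : SimpleGraph V) (γ : V → ℕ)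
    (h : ∃ (pos : V → Cyl) (arc : G.edgeSet → Set Cyl),
      IsEmbedding (fun e : G.edgeSet => (e : Sym2 V)) pos arc ∧
      IsBounded (fun e : G.edgeSet => (e : Sym2 V)) γ pos arc) :
    ∃ (pos : V → Cyl) (arc : G.edgeSet → Set Cyl),
      IsEmbedding (fun e : G.edgeSet => (e : Sym2 V)) pos arc ∧
      IsBounded (fun e : G.edgeSet => (e : Sym2 V)) γ pos arc ∧ AllRadial arc :=
  result _ γ h

end Pool.Agent.Results.MP_c5238b_co.RadialEmb
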